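import Pool.Agent.K3h18.PQ.Stm

/-!
# The square of the quadratic Gauss sum in a module (brick GSS of helper18, by helper87)
-/

set_option autoImplicit false

open Pool.Agent.K3h18.PQ

namespace Pool.Agent.K3h87.PQ

theorem J_ne (p : ℕ) [Fact p.Prime] (hp : p ≠ 2) (c : ZMod p) (hc : c ≠ 0) :
    ∑ a : ZMod p, quadraticChar (ZMod p) a * quadraticChar (ZMod p) (c - a) =
      - quadraticChar (ZMod p) (-1) := by
  have hchar : ringChar (ZMod p) ≠ 2 := by
    rw [ZMod.ringChar_zmod_n]
    exact hp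
  have h1 : jacobiSum (quadraticChar (ZMod p)) (quadraticChar (ZMod p)) =
      - quadraticChar (ZMod p) (-1) := by
    have h := jacobiSum_nontrivial_inv (quadraticChar_ne_one hchar)
    rw [(quadraticChar_isQuadratic (ZMod p)).inv] at h
    exact h
  rw [← h1, jacobiSum, ← Equiv.sum_comp (Equiv.mulLeft₀ c hc)]
  refine Finset.sum_congr rfl fun x _ => ?_
  have h0 : Equiv.mulLeft₀ c hc x = c * x := rfl
  have h2 : c - Equiv.mulLeft₀ c hc x = c * (1 - x) := by
    rw [h0]
    ring
  rw [h2, h0, map_mul, map_mul]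
  have h3 : quadraticChar (ZMod p) c ^ 2 = 1 := quadraticChar_sq_one hc
  linear_combination (quadraticChar (ZMod p) x * quadraticChar (ZMod p) (1 - x)) * h3

theorem J_zero (p : ℕ) [Fact p.Prime] :
    ∑ a : ZMod p, quadraticChar (ZMod p) a * quadraticChar (ZMod p) (0 - a) =
      quadraticChar (ZMod p) (-1) * ((p : ℤ) - 1) := by
  have h1 : ∀ a : ZMod p, quadraticChar (ZMod p) a * quadraticChar (ZMod p) (0 - a) =
      quadraticChar (ZMod p) (-1) * (1 - if a = 0 then 1 else 0) := by
    intro a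
    by_cases ha : a = 0
    · subst ha
      simp
    · have h2 : (0 : ZMod p) - a = (-1) * a := by ring
      rw [h2, map_mul, if_neg ha]
      have h3 : quadraticChar (ZMod p) a ^ 2 = 1 := quadraticChar_sq_one ha
      linear_combination quadraticChar (ZMod p) (-1) * h3
  rw [Finset.sum_congr rfl fun a _ => h1 a, ← Finset.mul_sum, Finset.sum_sub_distrib]
  simp [ZMod.card]

theorem t_GSS : St_GSS := by
  intro p _ hp B _ σ hσ b hb
  set χ := quadraticChar (ZMod p) with hχ
  have hadd : ∀ a a' : ZMod p, (σ ^ a.val) ((σ ^ a'.val) b) = (σ ^ (a + a').val) b := by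
    intro a a'
    rw [← Module.End.mul_apply, ← pow_add, ZMod.val_add, ← pow_eq_pow_mod _ hσ]
  have h1 : (∑ a : ZMod p, χ a • (σ ^ a.val) (∑ a' : ZMod p, χ a' • (σ ^ a'.val) b)) =
      ∑ a : ZMod p, ∑ c : ZMod p, (χ a * χ (c - a)) • (σ ^ c.val) b := by
    refine Finset.sum_congr rfl fun a _ => ?_
    rw [map_sum, Finset.smul_sum, ← Equiv.sum_comp (Equiv.addLeft a)
      (fun c => (χ a * χ (c - a)) • (σ ^ c.val) b)]
    refine Finset.sum_congr rfl fun a' _ => ?_
    rw [map_smul, smul_smul, hadd]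
    simp [Equiv.coe_addLeft]
  rw [h1, Finset.sum_comm]
  have h2 : ∀ c : ZMod p, ∑ a : ZMod p, (χ a * χ (c - a)) • (σ ^ c.val) b =
      (-(χ (-1))) • (σ ^ c.val) b + if c = 0 then (χ (-1) * (p : ℤ)) • b else 0 := by
    intro c
    rw [← Finset.sum_smul]
    by_cases hc : c = 0
    · subst hc
      rw [J_zero, if_pos rfl]
      simp only [ZMod.val_zero, pow_zero, Module.End.one_apply]
      rw [← add_smul]
      congr 1
      ring
    · rw [J_ne p hp c hc, if_neg hc, add_zero]
  rw [Finset.sum_congr rfl fun c _ => h2 c, Finset.sum_add_distrib, ← Finset.smul_sum, hb,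
    smul_zero, zero_add, Finset.sum_ite_eq']
  simp

end Pool.Agent.K3h87.PQ
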