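import Pool.Agent.K3h18.PQ.Stm

/-!
# Endomorphisms of lattices with a non-square scalar square (brick SQE of helper18, by helper87)
-/

set_option autoImplicit false

open Pool.Agent.K3h18.PQ

namespace Pool.Agent.K3h87.PQ

theorem t_SQE : St_SQE := by
  intro B _ _ _ S c hS hc
  have hcomp : S ∘ₗ S = c • (LinearMap.id : B →ₗ[ℤ] B) := by
    ext b
    simp [hS b]
  have hdet : LinearMap.det S * LinearMap.det S = c ^ Module.finrank ℤ B := by
    rw [← LinearMap.det_comp, hcomp, LinearMap.det_smul, LinearMap.det_id, mul_one]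
  by_contra hn
  rw [Nat.not_even_iff_odd] at hn
  obtain ⟨k, hk⟩ := hn
  rw [hk] at hdet
  have hc0 : c ≠ 0 := by
    rintro rfl
    exact hc ⟨0, by ring⟩
  have h1 : (c ^ k) ^ 2 ∣ LinearMap.det S ^ 2 := by
    refine ⟨c, ?_⟩
    rw [sq (LinearMap.det S), hdet]
    ring
  rw [Int.pow_dvd_pow_iff two_ne_zero] at h1
  obtain ⟨t, ht⟩ := h1
  refine hc ⟨t, ?_⟩
  have h2 : (c ^ k) ^ 2 ≠ 0 := pow_ne_zero _ (pow_ne_zero _ hc0)
  have h3 : (c ^ k) ^ 2 * c = (c ^ k) ^ 2 * (t * t) := by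
    rw [ht] at hdet
    linear_combination -hdet
  exact mul_left_cancel₀ h2 h3

end Pool.Agent.K3h87.PQ
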